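import Pool.Agent.H94.Stab.Defs

/-!
# M6a: translation estimate for symmetric matrix valued functions
-/

set_option autoImplicit false

open MeasureTheory Set Filter Topology
open scoped ContDiff

namespace Pool.Agent.H94.Stab

namespace M6

variable {n : ℕ}

/-- Smooth functions with compact support. -/
structure TF (g : E n → ℝ) : Prop where
  smooth : ContDiff ℝ ∞ g
  compact : HasCompactSupport g

namespace TF

theorem continuous {g : E n → ℝ} (hg : TF g) : Continuous g := hg.smooth.continuous

theorem integrable {g : E n → ℝ} (hg : TF g) : Integrable g :=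
  hg.continuous.integrable_of_hasCompactSupport hg.compact

theorem differentiable {g : E n → ℝ} (hg : TF g) : Differentiable ℝ g :=
  hg.smooth.differentiable (by simp)

theorem pd {g : E n → ℝ} (hg : TF g) (i : Fin n) : TF (Stab.pd i g) where
  smooth := by
    unfold Stab.pd
    exact (hg.smooth.fderiv_right (m := ∞) (by simp)).clm_apply contDiff_const
  compact := hg.compact.fderiv_apply ℝ _

theorem shift {g : E n → ℝ} (hg : TF g) (a : E n) : TF (fun x => g (x + a)) where
  smooth := hg.smooth.comp (contDiff_id.add contDiff_const)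
  compact := hg.compact.comp_homeomorph (Homeomorph.addRight a)

theorem add {g h : E n → ℝ} (hg : TF g) (hh : TF h) : TF (fun x => g x + h x) where
  smooth := hg.smooth.add hh.smooth
  compact := hg.compact.add hh.compact

theorem sub {g h : E n → ℝ} (hg : TF g) (hh : TF h) : TF (fun x => g x - h x) where
  smooth := hg.smooth.sub hh.smooth
  compact := by
    have := hg.compact.sub hh.compact
    exact this

theorem mul {g h : E n → ℝ} (hg : TF g) (hh : TF h) : TF (fun x => g x * h x) where
  smooth := hg.smooth.mul hh.smooth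
  compact := hg.compact.mul_right

theorem zero : TF (fun _ : E n => (0 : ℝ)) where
  smooth := contDiff_const
  compact := HasCompactSupport.zero

theorem sum {ι : Type*} (s : Finset ι) {g : ι → E n → ℝ} (hg : ∀ i ∈ s, TF (g i)) :
    TF (fun x => ∑ i ∈ s, g i x) := by
  classical
  induction s using Finset.induction_on with
  | empty => simpa using TF.zero
  | insert a s ha ih =>
    have h1 := (hg a (Finset.mem_insert_self _ _)).add
      (ih fun i hi => hg i (Finset.mem_insert_of_mem hi))
    refine ⟨?_, ?_⟩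
    · have := h1.smooth
      simpa only [Finset.sum_insert ha] using this
    · have := h1.compact
      simpa only [Finset.sum_insert ha] using this

end TF

theorem pd_shift (i : Fin n) (g : E n → ℝ) (a x : E n) :
    pd i (fun x => g (x + a)) x = pd i g (x + a) := by
  unfold pd
  rw [fderiv_comp_add_right]

theorem pd_sub' {g h : E n → ℝ} (hg : TF g) (hh : TF h) (i : Fin n) (x : E n) :
    pd i (fun x => g x - h x) x = pd i g x - pd i h x := by
  unfold pd
  have := fderiv_fun_sub (hg.differentiable x) (hh.differentiable x)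
  rw [this]
  rfl

theorem pd_sum' {ι : Type*} (s : Finset ι) {g : ι → E n → ℝ} (hg : ∀ i ∈ s, TF (g i)) (i : Fin n)
    (x : E n) : pd i (fun x => ∑ j ∈ s, g j x) x = ∑ j ∈ s, pd i (g j) x := by
  unfold pd
  have := fderiv_fun_sum (u := s) (A := g) (x := x) (𝕜 := ℝ)
    (fun j hj => (hg j hj).differentiable x)
  rw [this]
  simp

theorem ibp {f g : E n → ℝ} (hf : TF f) (hg : TF g) (i : Fin n) :
    ∫ x, f x * pd i g x = - ∫ x, pd i f x * g x := by
  unfold pd
  exact integral_mul_fderiv_eq_neg_fderiv_mul_of_integrable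
    ((hf.pd i).mul hg).integrable (hf.mul (hg.pd i)).integrable (hf.mul hg).integrable
    (fun x _ => hf.differentiable x) (fun x _ => hg.differentiable x)

theorem integral_shift (g : E n → ℝ) (a : E n) : ∫ x, g (x + a) = ∫ x, g x :=
  integral_add_right_eq_self g a

/-- Derivative of `r ↦ ∫ g(x) h(x + rτ e_l) dx`. -/
theorem hasDerivAt_corr {g h : E n → ℝ} (hg : TF g) (hh : TF h) (l : Fin n) (τ r : ℝ) :
    HasDerivAt (fun r : ℝ => ∫ x, g x * h (x + (r * τ) • EuclideanSpace.single l (1 : ℝ)))
      (∫ x, g x * (τ * pd l h (x + (r * τ) • EuclideanSpace.single l (1 : ℝ)))) r := by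
  obtain ⟨C, hC⟩ : ∃ C, ∀ x, |pd l h x| ≤ C := by
    obtain ⟨C, hC⟩ := (hh.pd l).compact.exists_bound_of_continuous (hh.pd l).continuous
    exact ⟨C, fun x => hC x⟩
  have hcont : ∀ r : ℝ, Continuous fun x : E n =>
      x + (r * τ) • (EuclideanSpace.single l (1 : ℝ) : E n) := fun r => by fun_prop
  refine (hasDerivAt_integral_of_dominated_loc_of_deriv_le (s := Set.univ)
    (bound := fun x => |g x| * (|τ| * C)) (F := fun (r : ℝ) x => g x *
      h (x + (r * τ) • (EuclideanSpace.single l (1 : ℝ) : E n)))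
    (F' := fun (r : ℝ) x => g x *
      (τ * pd l h (x + (r * τ) • (EuclideanSpace.single l (1 : ℝ) : E n)))) Filter.univ_mem
    ?_ ?_ ?_ ?_ ?_ ?_).2
  · exact Filter.Eventually.of_forall fun r =>
      (hg.continuous.mul (hh.continuous.comp (hcont r))).aestronglyMeasurable
  · exact (hg.mul (hh.shift _)).integrable
  · exact (hg.continuous.mul (continuous_const.mul ((hh.pd l).continuous.comp
      (hcont r)))).aestronglyMeasurable
  · refine Filter.Eventually.of_forall fun x r _ => ?_
    rw [norm_mul, norm_mul, Real.norm_eq_abs, Real.norm_eq_abs, Real.norm_eq_abs]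
    gcongr
    exact hC _
  · exact (hg.integrable.abs).mul_const _
  · refine Filter.Eventually.of_forall fun x r _ => ?_
    apply HasDerivAt.const_mul
    have h1 : HasFDerivAt h (fderiv ℝ h (x + (r * τ) • (EuclideanSpace.single l (1 : ℝ) : E n)))
      (x + (r * τ) • (EuclideanSpace.single l (1 : ℝ) : E n)) := (hh.differentiable _).hasFDerivAt
    have h2 : HasDerivAt (fun r : ℝ => x + (r * τ) • (EuclideanSpace.single l (1 : ℝ) : E n))
        (τ • (EuclideanSpace.single l (1 : ℝ) : E n)) r := by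
      have h3 : HasDerivAt (fun r : ℝ => (r * τ) • (EuclideanSpace.single l (1 : ℝ) : E n))
          ((1 * τ) • (EuclideanSpace.single l (1 : ℝ) : E n)) r :=
        ((hasDerivAt_id r).mul_const τ).smul_const _
      rw [one_mul] at h3
      exact h3.const_add x
    have h4 := h1.comp_hasDerivAt r h2
    rw [map_smul] at h4
    exact h4

/-- The `L²` pairing. -/
noncomputable def ip (g h : E n → ℝ) : ℝ := ∫ x, g x * h x

theorem ip_add_right {g h k : E n → ℝ} (hg : TF g) (hh : TF h) (hk : TF k) :
    ip g (fun x => h x + k x) = ip g h + ip g k := by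
  unfold ip
  rw [← integral_add (hg.mul hh).integrable (hg.mul hk).integrable]
  congr 1
  funext x
  ring

theorem ip_sub_right {g h k : E n → ℝ} (hg : TF g) (hh : TF h) (hk : TF k) :
    ip g (fun x => h x - k x) = ip g h - ip g k := by
  unfold ip
  rw [← integral_sub (hg.mul hh).integrable (hg.mul hk).integrable]
  congr 1
  funext x
  ring

theorem ip_comm (g h : E n → ℝ) : ip g h = ip h g := by
  unfold ip
  congr 1
  funext x
  ring

theorem ip_add_left {g h k : E n → ℝ} (hg : TF g) (hh : TF h) (hk : TF k) :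
    ip (fun x => h x + k x) g = ip h g + ip k g := by
  rw [ip_comm, ip_add_right hg hh hk, ip_comm g h, ip_comm g k]

theorem ip_sub_left {g h k : E n → ℝ} (hg : TF g) (hh : TF h) (hk : TF k) :
    ip (fun x => h x - k x) g = ip h g - ip k g := by
  rw [ip_comm, ip_sub_right hg hh hk, ip_comm g h, ip_comm g k]

theorem ip_sum_right {ι : Type*} (s : Finset ι) {g : E n → ℝ} {h : ι → E n → ℝ} (hg : TF g)
    (hh : ∀ i, TF (h i)) : ip g (fun x => ∑ i ∈ s, h i x) = ∑ i ∈ s, ip g (h i) := by
  unfold ip
  rw [← integral_finsetSum _ (fun i _ => (hg.mul (hh i)).integrable)]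
  congr 1
  funext x
  rw [Finset.mul_sum]

theorem ip_sum_left {ι : Type*} (s : Finset ι) {g : E n → ℝ} {h : ι → E n → ℝ} (hg : TF g)
    (hh : ∀ i, TF (h i)) : ip (fun x => ∑ i ∈ s, h i x) g = ∑ i ∈ s, ip (h i) g := by
  rw [ip_comm, ip_sum_right s hg hh]
  exact Finset.sum_congr rfl fun i _ => ip_comm _ _

theorem ip_pd {f g : E n → ℝ} (hf : TF f) (hg : TF g) (i : Fin n) :
    ip f (pd i g) = - ip (pd i f) g := ibp hf hg i

theorem ip_self_nonneg (g : E n → ℝ) : 0 ≤ ip g g :=
  integral_nonneg fun x => mul_self_nonneg (g x)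

theorem ip_young {g h : E n → ℝ} (hg : TF g) (hh : TF h) (τ : ℝ) :
    |τ * ip g h| ≤ 1 / 2 * ip g g + 1 / 2 * τ ^ 2 * ip h h := by
  have key : ∀ t : ℝ, 0 ≤ ip g g + 2 * t * ip g h + t ^ 2 * ip h h := by
    intro t
    have h1 : 0 ≤ ∫ x, (g x + t * h x) ^ 2 := integral_nonneg fun x => sq_nonneg _
    have h2 : ∫ x, (g x + t * h x) ^ 2 = ip g g + 2 * t * ip g h + t ^ 2 * ip h h := by
      have e0 : (fun x => (g x + t * h x) ^ 2) = fun x => (g x * g x + 2 * t * (g x * h x)) +
          t ^ 2 * (h x * h x) := by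
        funext x; ring
      have i1 : Integrable (fun x => g x * g x) := (hg.mul hg).integrable
      have i2 : Integrable (fun x => 2 * t * (g x * h x)) :=
        (hg.mul hh).integrable.const_mul _
      have i3 : Integrable (fun x => t ^ 2 * (h x * h x)) := (hh.mul hh).integrable.const_mul _
      have i12 : Integrable (fun x => g x * g x + 2 * t * (g x * h x)) := i1.add i2
      rw [e0, integral_add i12 i3, integral_add i1 i2, integral_const_mul,
        integral_const_mul]
      rfl
    rwa [h2] at h1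
  rw [abs_le]
  constructor
  · have := key τ
    nlinarith
  · have := key (-τ)
    nlinarith

theorem ip_young' {g h : E n → ℝ} (hg : TF g) (hh : TF h) (τ : ℝ) :
    |τ * ip g h| ≤ 1 / 2 * |τ| * (ip g g + ip h h) := by
  have h1 := ip_young hg hh 1
  rw [abs_mul]
  rw [one_mul, one_pow, mul_one] at h1
  nlinarith [abs_nonneg τ]

theorem ip_shift (g h : E n → ℝ) (a : E n) :
    ip (fun x => g (x + a)) (fun x => h (x + a)) = ip g h :=
  integral_shift (fun x => g x * h x) a

theorem ip_sub_self_le {g h : E n → ℝ} (hg : TF g) (hh : TF h) :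
    ip (fun x => g x - h x) (fun x => g x - h x) ≤ 2 * ip g g + 2 * ip h h := by
  rw [ip_sub_right (hg.sub hh) hg hh, ip_sub_left hg hg hh, ip_sub_left hh hg hh]
  have := ip_young hg hh 1
  rw [one_mul, one_pow, mul_one, abs_le] at this
  rw [ip_comm h g]
  linarith [this.1]

theorem ip_eq_sq (g : E n → ℝ) : ip g g = ∫ x, g x ^ 2 := by
  unfold ip
  congr 1
  funext x
  ring

section Main

variable {P : Fin n → Fin n → E n → ℝ}

/-- the curl -/
noncomputable def curlX (P : Fin n → Fin n → E n → ℝ) (k i j : Fin n) (x : E n) : ℝ :=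
  pd k (P i j) x - pd i (P k j) x

theorem curlX_TF (hP : ∀ i j, TF (P i j)) (k i j : Fin n) : TF (curlX P k i j) :=
  ((hP i j).pd k).sub ((hP k j).pd i)

/-- The derivative identity. -/
theorem B_identity (hP : ∀ i j, TF (P i j)) (hsym : ∀ i j, P i j = P j i) (l : Fin n) (b a : E n) :
    (∑ i, ∑ j, ip (fun x => P i j (x + b) - P i j x) (fun x => pd l (P i j) (x + a))) -
      ip (fun x => ∑ i, P i i (x + b) - ∑ i, P i i x)
        (fun x => pd l (fun y => ∑ i, P i i y) (x + a)) =
    - (∑ j, ip (fun x => ∑ i, P i i (x + b) - ∑ i, P i i x) (fun x => curlX P l j j (x + a)))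
    - (∑ i, ∑ j, ip (fun x => curlX P i j i (x + b) - curlX P i j i x) (fun x => P l j (x + a)))
    + ∑ i, ∑ j, ip (fun x => P i j (x + b) - P i j x) (fun x => curlX P l i j (x + a)) := by
  have hQ : ∀ i j, TF (fun x => P i j (x + b) - P i j x) := fun i j =>
    ((hP i j).shift b).sub (hP i j)
  have hX := curlX_TF hP
  have htr : TF (fun x => ∑ i, P i i (x + b) - ∑ i, P i i x) :=
    (TF.sum Finset.univ fun i _ => (hP i i).shift b).sub (TF.sum Finset.univ fun i _ => hP i i)
  -- step 1
  have s1 : ∀ i j, ip (fun x => P i j (x + b) - P i j x) (fun x => pd l (P i j) (x + a)) =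
      - ip (pd i (fun x => P i j (x + b) - P i j x)) (fun x => P l j (x + a)) +
      ip (fun x => P i j (x + b) - P i j x) (fun x => curlX P l i j (x + a)) := by
    intro i j
    rw [← ip_pd (hQ i j) ((hP l j).shift a) i]
    have e1 : (pd i fun x => P l j (x + a)) = fun x => pd i (P l j) (x + a) := by
      funext x; exact pd_shift i (P l j) a x
    rw [e1, ← ip_add_right (hQ i j) (((hP l j).pd i).shift a) ((hX l i j).shift a)]
    congr 1
    funext x
    unfold curlX
    ring
  -- step 2
  have s2 : ∀ i j, pd i (fun x => P i j (x + b) - P i j x) =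
      fun x => pd j (fun x => P i i (x + b) - P i i x) x +
        (curlX P i j i (x + b) - curlX P i j i x) := by
    intro i j
    funext x
    rw [pd_sub' ((hP i j).shift b) (hP i j), pd_sub' ((hP i i).shift b) (hP i i), pd_shift,
      pd_shift, hsym i j]
    unfold curlX
    ring
  have s3 : ∀ i j, ip (pd i (fun x => P i j (x + b) - P i j x)) (fun x => P l j (x + a)) =
      ip (pd j (fun x => P i i (x + b) - P i i x)) (fun x => P l j (x + a)) +
      ip (fun x => curlX P i j i (x + b) - curlX P i j i x) (fun x => P l j (x + a)) := by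
    intro i j
    rw [s2 i j, ip_add_left ((hP l j).shift a) ((hQ i i).pd j)
      (((hX i j i).shift b).sub (hX i j i))]
  -- trace
  have s4 : ∀ j, ∑ i, ip (pd j (fun x => P i i (x + b) - P i i x)) (fun x => P l j (x + a)) =
      - ip (fun x => ∑ i, P i i (x + b) - ∑ i, P i i x) (fun x => pd l (P j j) (x + a)) +
      ip (fun x => ∑ i, P i i (x + b) - ∑ i, P i i x) (fun x => curlX P l j j (x + a)) := by
    intro j
    rw [← ip_sum_left Finset.univ ((hP l j).shift a) (fun i => (hQ i i).pd j)]
    have e2 : (fun x => ∑ i, pd j (fun x => P i i (x + b) - P i i x) x) =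
        pd j (fun x => ∑ i, P i i (x + b) - ∑ i, P i i x) := by
      funext x
      rw [← pd_sum' Finset.univ (fun i _ => hQ i i)]
      congr 1
      funext y
      rw [Finset.sum_sub_distrib]
    rw [e2]
    have e3 := ip_pd htr ((hP l j).shift a) j
    have e4 : (pd j fun x => P l j (x + a)) = fun x => pd l (P j j) (x + a) -
        curlX P l j j (x + a) := by
      funext x
      rw [pd_shift]
      unfold curlX
      ring
    rw [e4, ip_sub_right htr (((hP j j).pd l).shift a) ((hX l j j).shift a)] at e3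
    linarith
  have s5 : ip (fun x => ∑ i, P i i (x + b) - ∑ i, P i i x)
        (fun x => pd l (fun y => ∑ i, P i i y) (x + a)) =
      ∑ j, ip (fun x => ∑ i, P i i (x + b) - ∑ i, P i i x) (fun x => pd l (P j j) (x + a)) := by
    rw [← ip_sum_right Finset.univ htr (fun j => ((hP j j).pd l).shift a)]
    congr 1
    funext x
    exact pd_sum' Finset.univ (fun i _ => hP i i) l (x + a)
  have s6 : ∑ i, ∑ j, ip (fun x => P i j (x + b) - P i j x) (fun x => pd l (P i j) (x + a)) =
      - (∑ j, ∑ i, ip (pd j (fun x => P i i (x + b) - P i i x)) (fun x => P l j (x + a)))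
      - (∑ i, ∑ j, ip (fun x => curlX P i j i (x + b) - curlX P i j i x)
          (fun x => P l j (x + a)))
      + ∑ i, ∑ j, ip (fun x => P i j (x + b) - P i j x) (fun x => curlX P l i j (x + a)) := by
    rw [Finset.sum_comm (s := Finset.univ) (t := Finset.univ)
      (f := fun j i => ip (pd j (fun x => P i i (x + b) - P i i x)) (fun x => P l j (x + a)))]
    rw [← Finset.sum_neg_distrib, ← Finset.sum_sub_distrib, ← Finset.sum_add_distrib]
    refine Finset.sum_congr rfl fun i _ => ?_
    rw [← Finset.sum_neg_distrib, ← Finset.sum_sub_distrib, ← Finset.sum_add_distrib]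
    refine Finset.sum_congr rfl fun j _ => ?_
    rw [s1, s3]
    ring
  rw [s6, s5, Finset.sum_congr rfl (fun j _ => s4 j), Finset.sum_add_distrib,
    Finset.sum_neg_distrib]
  ring

end Main

end M6

open M6 in
/-- M6a. -/
theorem matrix_translation (n : ℕ) : ∃ C : ℝ, 0 ≤ C ∧
    ∀ (P : Fin n → Fin n → E n → ℝ), (∀ i j, ContDiff ℝ ∞ (P i j)) →
      (∀ i j, HasCompactSupport (P i j)) → (∀ i j, P i j = P j i) → ∀ (l : Fin n) (τ : ℝ),
      ∑ i, ∑ j, ∫ x, (P i j (x + τ • EuclideanSpace.single l (1 : ℝ)) - P i j x) ^ 2 ≤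
        C * ((∫ x, (∑ i, P i i (x + τ • EuclideanSpace.single l (1 : ℝ)) - ∑ i, P i i x) ^ 2) +
          |τ| * (1 + |τ|) * ((∑ i, ∑ j, ∑ k, ∫ x, (pd k (P i j) x - pd i (P k j) x) ^ 2) +
            ∑ i, ∑ j, ∫ x, (P i j x) ^ 2)) := by
  refine ⟨n + 6, by positivity, ?_⟩
  intro P hP1 hP2 hsym l τ
  have hP : ∀ i j, TF (P i j) := fun i j => ⟨hP1 i j, hP2 i j⟩
  have hX := curlX_TF hP
  set e : E n := EuclideanSpace.single l (1 : ℝ) with he
  set b : E n := τ • e with hb
  have hQ : ∀ i j, TF (fun x => P i j (x + b) - P i j x) := fun i j =>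
    ((hP i j).shift b).sub (hP i j)
  have hT : TF (fun x => ∑ i, P i i x) := TF.sum Finset.univ fun i _ => hP i i
  have htr : TF (fun x => ∑ i, P i i (x + b) - ∑ i, P i i x) :=
    (TF.sum Finset.univ fun i _ => (hP i i).shift b).sub (TF.sum Finset.univ fun i _ => hP i i)
  set trQ : E n → ℝ := fun x => ∑ i, P i i (x + b) - ∑ i, P i i x with htrQ
  set SQ : ℝ := ∑ i, ∑ j, ip (fun x => P i j (x + b) - P i j x) (fun x => P i j (x + b) - P i j x)
    with hSQ
  set ST : ℝ := ip trQ trQ with hST
  set SX : ℝ := ∑ i, ∑ j, ∑ k, ip (curlX P k i j) (curlX P k i j) with hSX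
  set SP : ℝ := ∑ i, ∑ j, ip (P i j) (P i j) with hSP
  -- sub-sums
  have n0 : ∀ g : E n → ℝ, 0 ≤ ip g g := ip_self_nonneg
  have hX1 : ∑ j, ip (curlX P l j j) (curlX P l j j) ≤ SX := by
    refine Finset.sum_le_sum fun j _ => ?_
    refine le_trans ?_ (Finset.single_le_sum
      (f := fun j' => ∑ k, ip (curlX P k j j') (curlX P k j j'))
      (fun j' _ => Finset.sum_nonneg fun k _ => n0 _) (Finset.mem_univ j))
    exact Finset.single_le_sum (f := fun k => ip (curlX P k j j) (curlX P k j j))
      (fun k _ => n0 _) (Finset.mem_univ l)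
  have hX2 : ∑ i, ∑ j, ip (curlX P l i j) (curlX P l i j) ≤ SX := by
    refine Finset.sum_le_sum fun i _ => Finset.sum_le_sum fun j _ => ?_
    exact Finset.single_le_sum (f := fun k => ip (curlX P k i j) (curlX P k i j))
      (fun k _ => n0 _) (Finset.mem_univ l)
  have hX3 : ∑ i, ∑ j, ip (curlX P i j i) (curlX P i j i) ≤ SX := by
    rw [Finset.sum_comm]
    refine Finset.sum_le_sum fun j _ => Finset.sum_le_sum fun i _ => ?_
    exact Finset.single_le_sum (f := fun k => ip (curlX P k j i) (curlX P k j i))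
      (fun k _ => n0 _) (Finset.mem_univ i)
  have hP3 : ∑ i : Fin n, ∑ j, ip (P l j) (P l j) ≤ n * SP := by
    rw [Finset.sum_const, Finset.card_univ, Fintype.card_fin, nsmul_eq_mul]
    refine mul_le_mul_of_nonneg_left ?_ (Nat.cast_nonneg n)
    exact Finset.single_le_sum (f := fun i => ∑ j, ip (P i j) (P i j))
      (fun i _ => Finset.sum_nonneg fun j _ => n0 _) (Finset.mem_univ l)
  have hSX0 : 0 ≤ SX := Finset.sum_nonneg fun i _ => Finset.sum_nonneg fun j _ =>
    Finset.sum_nonneg fun k _ => n0 _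
  have hSP0 : 0 ≤ SP := Finset.sum_nonneg fun i _ => Finset.sum_nonneg fun j _ => n0 _
  have hSQ0 : 0 ≤ SQ := Finset.sum_nonneg fun i _ => Finset.sum_nonneg fun j _ => n0 _
  have hST0 : 0 ≤ ST := n0 _
  -- the function
  let G : ℝ → ℝ := fun r => (∑ i, ∑ j, ∫ x, (P i j (x + b) - P i j x) * P i j (x + (r * τ) • e)) -
    ∫ x, trQ x * (∑ i, P i i (x + (r * τ) • e))
  let G' : ℝ → ℝ := fun r => (∑ i, ∑ j, ∫ x, (P i j (x + b) - P i j x) *
      (τ * pd l (P i j) (x + (r * τ) • e))) -
    ∫ x, trQ x * (τ * pd l (fun y => ∑ i, P i i y) (x + (r * τ) • e))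
  have hG : ∀ r, HasDerivAt G (G' r) r := by
    intro r
    apply HasDerivAt.sub
    · apply HasDerivAt.fun_sum
      intro i _
      apply HasDerivAt.fun_sum
      intro j _
      exact hasDerivAt_corr (hQ i j) (hP i j) l τ r
    · exact hasDerivAt_corr htr hT l τ r
  have hG'eq : ∀ r, G' r =
      - (∑ j, τ * ip trQ (fun x => curlX P l j j (x + (r * τ) • e)))
      - (∑ i, ∑ j, τ * ip (fun x => curlX P i j i (x + b) - curlX P i j i x)
          (fun x => P l j (x + (r * τ) • e)))
      + ∑ i, ∑ j, τ * ip (fun x => P i j (x + b) - P i j x)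
          (fun x => curlX P l i j (x + (r * τ) • e)) := by
    intro r
    have h1 : ∀ g h : E n → ℝ, ∫ x, g x * (τ * h x) = τ * ip g h := by
      intro g h
      unfold ip
      rw [← integral_const_mul]
      congr 1
      funext x
      ring
    have h2 : G' r = τ * ((∑ i, ∑ j, ip (fun x => P i j (x + b) - P i j x)
        (fun x => pd l (P i j) (x + (r * τ) • e))) -
      ip trQ (fun x => pd l (fun y => ∑ i, P i i y) (x + (r * τ) • e))) := by
      simp only [G']
      rw [mul_sub, Finset.mul_sum, h1 trQ]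
      congr 1
      refine Finset.sum_congr rfl fun i _ => ?_
      rw [Finset.mul_sum]
      exact Finset.sum_congr rfl fun j _ => h1 _ _
    rw [h2, B_identity hP hsym l b ((r * τ) • e)]
    simp only [← Finset.mul_sum]
    ring
  set Bd : ℝ := (n / 2 * ST + 1 / 2 * τ ^ 2 * SX) + 1 / 2 * |τ| * (4 * SX + n * SP) +
    (1 / 2 * SQ + 1 / 2 * τ ^ 2 * SX) with hBd
  have hbound : ∀ r, |G' r| ≤ Bd := by
    intro r
    have b1 : |∑ j, τ * ip trQ (fun x => curlX P l j j (x + (r * τ) • e))| ≤
        n / 2 * ST + 1 / 2 * τ ^ 2 * SX := by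
      refine (Finset.abs_sum_le_sum_abs _ _).trans ?_
      have : ∀ j ∈ (Finset.univ : Finset (Fin n)),
          |τ * ip trQ (fun x => curlX P l j j (x + (r * τ) • e))| ≤
          1 / 2 * ST + 1 / 2 * τ ^ 2 * ip (curlX P l j j) (curlX P l j j) := by
        intro j _
        refine (ip_young htr ((hX l j j).shift _) τ).trans ?_
        rw [ip_shift]
      refine (Finset.sum_le_sum this).trans ?_
      rw [Finset.sum_add_distrib, Finset.sum_const, Finset.card_univ, Fintype.card_fin,
        nsmul_eq_mul, ← Finset.mul_sum]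
      have h3 : 1 / 2 * τ ^ 2 * ∑ j, ip (curlX P l j j) (curlX P l j j) ≤
          1 / 2 * τ ^ 2 * SX := mul_le_mul_of_nonneg_left hX1 (by positivity)
      linarith
    have b2 : |∑ i, ∑ j, τ * ip (fun x => curlX P i j i (x + b) - curlX P i j i x)
          (fun x => P l j (x + (r * τ) • e))| ≤ 1 / 2 * |τ| * (4 * SX + n * SP) := by
      refine (Finset.abs_sum_le_sum_abs _ _).trans ?_
      have h0 : ∀ i ∈ (Finset.univ : Finset (Fin n)),
          |∑ j, τ * ip (fun x => curlX P i j i (x + b) - curlX P i j i x)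
            (fun x => P l j (x + (r * τ) • e))| ≤
          ∑ j, 1 / 2 * |τ| * (4 * ip (curlX P i j i) (curlX P i j i) + ip (P l j) (P l j)) := by
        intro i _
        refine (Finset.abs_sum_le_sum_abs _ _).trans (Finset.sum_le_sum fun j _ => ?_)
        refine (ip_young' (((hX i j i).shift b).sub (hX i j i)) ((hP l j).shift _) τ).trans ?_
        rw [ip_shift]
        have h5 := ip_sub_self_le ((hX i j i).shift b) (hX i j i)
        rw [ip_shift] at h5
        refine mul_le_mul_of_nonneg_left ?_ (by positivity)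
        linarith
      refine (Finset.sum_le_sum h0).trans ?_
      simp only [← Finset.mul_sum, Finset.sum_add_distrib]
      refine mul_le_mul_of_nonneg_left ?_ (by positivity)
      linarith
    have b3 : |∑ i, ∑ j, τ * ip (fun x => P i j (x + b) - P i j x)
          (fun x => curlX P l i j (x + (r * τ) • e))| ≤ 1 / 2 * SQ + 1 / 2 * τ ^ 2 * SX := by
      refine (Finset.abs_sum_le_sum_abs _ _).trans ?_
      have h0 : ∀ i ∈ (Finset.univ : Finset (Fin n)),
          |∑ j, τ * ip (fun x => P i j (x + b) - P i j x)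
            (fun x => curlX P l i j (x + (r * τ) • e))| ≤
          ∑ j, (1 / 2 * ip (fun x => P i j (x + b) - P i j x) (fun x => P i j (x + b) - P i j x) +
            1 / 2 * τ ^ 2 * ip (curlX P l i j) (curlX P l i j)) := by
        intro i _
        refine (Finset.abs_sum_le_sum_abs _ _).trans (Finset.sum_le_sum fun j _ => ?_)
        refine (ip_young (hQ i j) ((hX l i j).shift _) τ).trans ?_
        rw [ip_shift]
      refine (Finset.sum_le_sum h0).trans ?_
      simp only [Finset.sum_add_distrib, ← Finset.mul_sum]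
      have h3 : 1 / 2 * τ ^ 2 * ∑ i, ∑ j, ip (curlX P l i j) (curlX P l i j) ≤
          1 / 2 * τ ^ 2 * SX := mul_le_mul_of_nonneg_left hX2 (by positivity)
      linarith
    rw [hG'eq, hBd]
    rw [abs_le] at b1 b2 b3 ⊢
    constructor <;> linarith [b1.1, b1.2, b2.1, b2.2, b3.1, b3.2]
  have hmv : |G 1 - G 0| ≤ Bd := by
    have := norm_image_sub_le_of_norm_deriv_le_segment_01' (f := G) (f' := G') (C := Bd)
      (fun x _ => (hG x).hasDerivWithinAt) (fun x _ => hbound x)
    rwa [Real.norm_eq_abs] at this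
  have hG10 : G 1 - G 0 = SQ - ST := by
    have e1 : G 1 = (∑ i, ∑ j, ip (fun x => P i j (x + b) - P i j x) (fun x => P i j (x + b))) -
        ip trQ (fun x => ∑ i, P i i (x + b)) := by
      simp only [G, one_mul]
      rfl
    have e0 : G 0 = (∑ i, ∑ j, ip (fun x => P i j (x + b) - P i j x) (P i j)) -
        ip trQ (fun x => ∑ i, P i i x) := by
      simp only [G, zero_mul, zero_smul, add_zero]
      rfl
    have e2 : SQ = (∑ i, ∑ j, ip (fun x => P i j (x + b) - P i j x) (fun x => P i j (x + b))) -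
        ∑ i, ∑ j, ip (fun x => P i j (x + b) - P i j x) (P i j) := by
      rw [hSQ, ← Finset.sum_sub_distrib]
      refine Finset.sum_congr rfl fun i _ => ?_
      rw [← Finset.sum_sub_distrib]
      refine Finset.sum_congr rfl fun j _ => ?_
      rw [ip_sub_right (hQ i j) ((hP i j).shift b) (hP i j)]
    have e3 : ST = ip trQ (fun x => ∑ i, P i i (x + b)) - ip trQ (fun x => ∑ i, P i i x) := by
      rw [hST, ← ip_sub_right htr (TF.sum Finset.univ fun i _ => (hP i i).shift b) hT]
    rw [e1, e0, e2, e3]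
    ring
  rw [hG10] at hmv
  have hle : SQ - ST ≤ Bd := (abs_le.mp hmv).2
  -- conclusion
  have f1 : ∑ i, ∑ j, ∫ x, (P i j (x + b) - P i j x) ^ 2 = SQ := by
    rw [hSQ]
    exact Finset.sum_congr rfl fun i _ => Finset.sum_congr rfl fun j _ => (ip_eq_sq _).symm
  have f2 : ∫ x, (∑ i, P i i (x + b) - ∑ i, P i i x) ^ 2 = ST := (ip_eq_sq _).symm
  have f3 : ∑ i, ∑ j, ∑ k, ∫ x, (pd k (P i j) x - pd i (P k j) x) ^ 2 = SX := by
    rw [hSX]
    exact Finset.sum_congr rfl fun i _ => Finset.sum_congr rfl fun j _ =>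
      Finset.sum_congr rfl fun k _ => (ip_eq_sq _).symm
  have f4 : ∑ i, ∑ j, ∫ x, (P i j x) ^ 2 = SP := by
    rw [hSP]
    exact Finset.sum_congr rfl fun i _ => Finset.sum_congr rfl fun j _ => (ip_eq_sq _).symm
  rw [f1, f2, f3, f4]
  rw [hBd] at hle
  have ht : τ ^ 2 = |τ| * |τ| := by rw [← abs_mul, ← pow_two, abs_of_nonneg (sq_nonneg τ)]
  have ha : 0 ≤ |τ| := abs_nonneg τ
  have hn : (0 : ℝ) ≤ n := Nat.cast_nonneg n
  rw [ht] at hle
  have g1 : 0 ≤ |τ| * SX := mul_nonneg ha hSX0
  have g2 : 0 ≤ |τ| * SP := mul_nonneg ha hSP0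
  have g3 : 0 ≤ |τ| * |τ| * SX := mul_nonneg (mul_nonneg ha ha) hSX0
  have g4 : 0 ≤ |τ| * |τ| * SP := mul_nonneg (mul_nonneg ha ha) hSP0
  have g5 : 0 ≤ n * (|τ| * SX) := mul_nonneg hn g1
  have g6 : 0 ≤ n * (|τ| * |τ| * SX) := mul_nonneg hn g3
  have g7 : 0 ≤ n * (|τ| * |τ| * SP) := mul_nonneg hn g4
  nlinarith


end Pool.Agent.H94.Stab
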