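import Pool.Agent.H94.Stab.Calc2
import Pool.Agent.H9.Stab.M6a

/-!
# M6b: translation estimate for `χ |∇u| ν ν`
-/

set_option autoImplicit false

open MeasureTheory Set Filter Topology
open scoped ContDiff

namespace Pool.Agent.H94.Stab

namespace M6

variable {n : ℕ}

/-- regularised norm of the gradient -/
noncomputable def se (u : E n → ℝ) (ε : ℝ) (x : E n) : ℝ := Real.sqrt (gsq u x + ε ^ 2)

/-- regularised `χ |∇u| ν_i ν_j` -/
noncomputable def Pe (χ u : E n → ℝ) (ε : ℝ) (i j : Fin n) (x : E n) : ℝ :=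
  χ x * (pd i u x * pd j u x / se u ε x)

theorem se_pos (u : E n → ℝ) {ε : ℝ} (hε : ε ≠ 0) (x : E n) : 0 < se u ε x :=
  Real.sqrt_pos.mpr (add_pos_of_nonneg_of_pos (gsq_nonneg u x) (by positivity))

theorem gr_le_se (u : E n → ℝ) (ε : ℝ) (x : E n) : gr u x ≤ se u ε x :=
  Real.sqrt_le_sqrt (by nlinarith [sq_nonneg ε])

theorem se_smooth {u : E n → ℝ} (hu : ContDiff ℝ ∞ u) {ε : ℝ} (hε : ε ≠ 0) :
    ContDiff ℝ ∞ (se u ε) := by
  unfold se
  refine ContDiff.sqrt ((contDiff_gsq hu).add contDiff_const) fun x => ?_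
  have := add_pos_of_nonneg_of_pos (gsq_nonneg u x) (show 0 < ε ^ 2 by positivity)
  exact this.ne'

theorem Pe_smooth {χ u : E n → ℝ} (hχ : ContDiff ℝ ∞ χ) (hu : ContDiff ℝ ∞ u) {ε : ℝ} (hε : ε ≠ 0)
    (i j : Fin n) : ContDiff ℝ ∞ (Pe χ u ε i j) := by
  unfold Pe
  exact hχ.mul (((contDiff_pd_infty i hu).mul (contDiff_pd_infty j hu)).div (se_smooth hu hε)
    fun x => (se_pos u hε x).ne')

theorem pd_se {u : E n → ℝ} (hu : ContDiff ℝ ∞ u) {ε : ℝ} (hε : ε ≠ 0) (k : Fin n) (x : E n) :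
    pd k (se u ε) x = (∑ l, pd l u x * pd k (pd l u) x) / se u ε x := by
  have hd : ∀ l, DifferentiableAt ℝ (pd l u) x := fun l =>
    (contDiff_pd_infty l hu).differentiable (by simp) x
  have hg : DifferentiableAt ℝ (gsq u) x := (contDiff_gsq hu).differentiable (by simp) x
  have h1 : pd k (fun y => gsq u y + ε ^ 2) x = 2 * ∑ l, pd l u x * pd k (pd l u) x := by
    rw [pd_add k hg (differentiableAt_const _), pd_const, add_zero]
    unfold gsq
    rw [pd_sum (g := fun l y => pd l u y ^ 2) k (fun l _ => (hd l).pow 2), Finset.mul_sum]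
    refine Finset.sum_congr rfl fun l _ => ?_
    rw [pd_sq k (hd l)]
    ring
  have h0 : gsq u x + ε ^ 2 ≠ 0 :=
    (add_pos_of_nonneg_of_pos (gsq_nonneg u x) (show 0 < ε ^ 2 by positivity)).ne'
  have h2 := pd_sqrt k (g := fun y => gsq u y + ε ^ 2) (hg.add (differentiableAt_const _)) h0
  unfold se
  rw [h2, h1]
  rw [mul_div_mul_left _ _ two_ne_zero]

theorem cancel_nu (u : E n → ℝ) (f : ℝ → ℝ) (i k l : Fin n) (x : E n) :
    pd i u x * Wt f u k l x - pd k u x * Wt f u i l x =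
      pd i u x * pd k (pd l u) x - pd k u x * pd i (pd l u) x := by
  unfold Wt
  have h1 := gr_mul_nu u i x
  have h2 := gr_mul_nu u k x
  have h3 : pd i u x * (f (u x) * nu u k x * nu u l x) =
      pd k u x * (f (u x) * nu u i x * nu u l x) := by
    rw [← h1, ← h2]; ring
  linarith

theorem curl_formula {χ u : E n → ℝ} (hχ : ContDiff ℝ ∞ χ) (hu : ContDiff ℝ ∞ u) (f : ℝ → ℝ)
    {ε : ℝ} (hε : ε ≠ 0) (k i j : Fin n) (x : E n) :
    pd k (Pe χ u ε i j) x - pd i (Pe χ u ε k j) x =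
      (pd k χ x * pd i u x - pd i χ x * pd k u x) * pd j u x / se u ε x +
      χ x * ((pd i u x * Wt f u k j x - pd k u x * Wt f u i j x) / se u ε x -
        pd j u x * (∑ l, pd l u x * (pd i u x * Wt f u k l x - pd k u x * Wt f u i l x)) /
          se u ε x ^ 3) := by
  have hs := se_pos u hε x
  have hsd : DifferentiableAt ℝ (se u ε) x := (se_smooth hu hε).differentiable (by simp) x
  have hd : ∀ l, DifferentiableAt ℝ (pd l u) x := fun l =>
    (contDiff_pd_infty l hu).differentiable (by simp) x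
  have hχd : DifferentiableAt ℝ χ x := hχ.differentiable (by simp) x
  have key : ∀ a b c : Fin n, pd a (Pe χ u ε b c) x =
      pd a χ x * (pd b u x * pd c u x / se u ε x) + χ x *
      (((pd a (pd b u) x * pd c u x + pd b u x * pd a (pd c u) x) * se u ε x -
        pd b u x * pd c u x * ((∑ l, pd l u x * pd a (pd l u) x) / se u ε x)) / se u ε x ^ 2) := by
    intro a b c
    unfold Pe
    have e1 : DifferentiableAt ℝ (fun x => pd b u x * pd c u x) x := (hd b).mul (hd c)
    have e2 : DifferentiableAt ℝ (fun x => pd b u x * pd c u x / se u ε x) x := by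
      simp only [div_eq_mul_inv]
      exact e1.mul (hsd.inv hs.ne')
    rw [pd_mul a hχd e2, pd_div a e1 hsd hs.ne', pd_mul a (hd b) (hd c), pd_se hu hε]
  have hsum : ∑ l, pd l u x * (pd i u x * Wt f u k l x - pd k u x * Wt f u i l x) =
      pd i u x * (∑ l, pd l u x * pd k (pd l u) x) -
      pd k u x * (∑ l, pd l u x * pd i (pd l u) x) := by
    rw [Finset.mul_sum, Finset.mul_sum, ← Finset.sum_sub_distrib]
    refine Finset.sum_congr rfl fun l _ => ?_
    rw [cancel_nu]
    ring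
  rw [key, key, hsum, cancel_nu, pd_comm (hu.of_le two_le_infty) k i x]
  have hs' := hs.ne'
  field_simp
  ring

theorem abs_div_se_le (u : E n → ℝ) {ε : ℝ} (hε : ε ≠ 0) (i : Fin n) (x : E n) :
    |pd i u x / se u ε x| ≤ 1 := by
  have hs := se_pos u hε x
  rw [abs_div, abs_of_pos hs, div_le_one hs]
  exact (abs_pd_le_gr u i x).trans (gr_le_se u ε x)

theorem curl_bound {χ u : E n → ℝ} (hχ : ContDiff ℝ ∞ χ) (hu : ContDiff ℝ ∞ u) (f : ℝ → ℝ)
    {ε : ℝ} (hε : ε ≠ 0) (k i j : Fin n) (x : E n) :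
    (pd k (Pe χ u ε i j) x - pd i (Pe χ u ε k j) x) ^ 2 ≤
      (2 * (2 + 2 * n) ^ 2 + 8) * (χ x ^ 2 * Wsq f u x + gsq χ x * gsq u x) := by
  have hs := se_pos u hε x
  set s := se u ε x with hsdef
  set w := Real.sqrt (Wsq f u x) with hw
  have hw0 : 0 ≤ w := Real.sqrt_nonneg _
  have hw2 : w ^ 2 = Wsq f u x := Real.sq_sqrt (Wsq_nonneg f u x)
  have ha : ∀ a, |pd a u x / s| ≤ 1 := fun a => abs_div_se_le u hε a x
  have hW : ∀ a b, |Wt f u a b x| ≤ w := fun a b => abs_Wt_le f u a b x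
  have hform := curl_formula hχ hu f hε k i j x
  rw [← hsdef] at hform
  have e1 : (pd i u x * Wt f u k j x - pd k u x * Wt f u i j x) / s =
      pd i u x / s * Wt f u k j x - pd k u x / s * Wt f u i j x := by
    field_simp
  have e2 : pd j u x * (∑ l, pd l u x * (pd i u x * Wt f u k l x - pd k u x * Wt f u i l x)) /
      s ^ 3 = pd j u x / s * ∑ l, pd l u x / s *
        (pd i u x / s * Wt f u k l x - pd k u x / s * Wt f u i l x) := by
    rw [Finset.mul_sum, Finset.mul_sum, Finset.sum_div]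
    refine Finset.sum_congr rfl fun l _ => ?_
    field_simp
  have e3 : (pd k χ x * pd i u x - pd i χ x * pd k u x) * pd j u x / s =
      (pd k χ x * pd i u x - pd i χ x * pd k u x) * (pd j u x / s) := by
    rw [mul_div_assoc]
  rw [e1, e2, e3] at hform
  rw [hform]
  have b1 : |(pd k χ x * pd i u x - pd i χ x * pd k u x) * (pd j u x / s)| ≤
      2 * (gr χ x * gr u x) := by
    rw [abs_mul]
    have h1 : |pd k χ x * pd i u x - pd i χ x * pd k u x| ≤ 2 * (gr χ x * gr u x) := by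
      refine (abs_sub _ _).trans ?_
      rw [abs_mul, abs_mul]
      have h2 : |pd k χ x| * |pd i u x| ≤ gr χ x * gr u x :=
        mul_le_mul (abs_pd_le_gr χ k x) (abs_pd_le_gr u i x) (abs_nonneg _) (gr_nonneg _ _)
      have h3 : |pd i χ x| * |pd k u x| ≤ gr χ x * gr u x :=
        mul_le_mul (abs_pd_le_gr χ i x) (abs_pd_le_gr u k x) (abs_nonneg _) (gr_nonneg _ _)
      linarith
    have h4 : 0 ≤ gr χ x * gr u x := mul_nonneg (gr_nonneg _ _) (gr_nonneg _ _)
    calc _ ≤ (2 * (gr χ x * gr u x)) * 1 := mul_le_mul h1 (ha j) (abs_nonneg _) (by linarith)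
      _ = _ := mul_one _
  have b2 : |pd i u x / s * Wt f u k j x - pd k u x / s * Wt f u i j x| ≤ 2 * w := by
    refine (abs_sub _ _).trans ?_
    rw [abs_mul, abs_mul]
    have h1 : |pd i u x / s| * |Wt f u k j x| ≤ 1 * w :=
      mul_le_mul (ha i) (hW k j) (abs_nonneg _) zero_le_one
    have h2 : |pd k u x / s| * |Wt f u i j x| ≤ 1 * w :=
      mul_le_mul (ha k) (hW i j) (abs_nonneg _) zero_le_one
    linarith
  have b3 : |pd j u x / s * ∑ l, pd l u x / s *
        (pd i u x / s * Wt f u k l x - pd k u x / s * Wt f u i l x)| ≤ n * (2 * w) := by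
    rw [abs_mul]
    have h1 : |∑ l, pd l u x / s *
        (pd i u x / s * Wt f u k l x - pd k u x / s * Wt f u i l x)| ≤ n * (2 * w) := by
      refine (Finset.abs_sum_le_sum_abs _ _).trans ?_
      have h2 : ∀ l ∈ (Finset.univ : Finset (Fin n)), |pd l u x / s *
          (pd i u x / s * Wt f u k l x - pd k u x / s * Wt f u i l x)| ≤ 2 * w := by
        intro l _
        rw [abs_mul]
        have h3 : |pd i u x / s * Wt f u k l x - pd k u x / s * Wt f u i l x| ≤ 2 * w := by
          refine (abs_sub _ _).trans ?_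
          rw [abs_mul, abs_mul]
          have h1 : |pd i u x / s| * |Wt f u k l x| ≤ 1 * w :=
            mul_le_mul (ha i) (hW k l) (abs_nonneg _) zero_le_one
          have h2 : |pd k u x / s| * |Wt f u i l x| ≤ 1 * w :=
            mul_le_mul (ha k) (hW i l) (abs_nonneg _) zero_le_one
          linarith
        calc _ ≤ 1 * (2 * w) := mul_le_mul (ha l) h3 (abs_nonneg _) zero_le_one
          _ = _ := one_mul _
      refine (Finset.sum_le_sum h2).trans ?_
      rw [Finset.sum_const, Finset.card_univ, Fintype.card_fin, nsmul_eq_mul]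
    have h5 : (0 : ℝ) ≤ n * (2 * w) := by positivity
    calc _ ≤ 1 * (n * (2 * w)) := mul_le_mul (ha j) h1 (abs_nonneg _) zero_le_one
      _ = _ := one_mul _
  set A := (pd k χ x * pd i u x - pd i χ x * pd k u x) * (pd j u x / s)
  set B := pd i u x / s * Wt f u k j x - pd k u x / s * Wt f u i j x -
    pd j u x / s * ∑ l, pd l u x / s *
        (pd i u x / s * Wt f u k l x - pd k u x / s * Wt f u i l x) with hB
  have b4 : |B| ≤ (2 + 2 * n) * w := by
    rw [hB]
    refine (abs_sub _ _).trans ?_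
    linarith
  have c1 : A ^ 2 ≤ 4 * (gsq χ x * gsq u x) := by
    rw [← sq_abs A]
    calc |A| ^ 2 ≤ (2 * (gr χ x * gr u x)) ^ 2 := pow_le_pow_left₀ (abs_nonneg _) b1 2
      _ = _ := by rw [← gr_sq χ x, ← gr_sq u x]; ring
  have c2 : B ^ 2 ≤ (2 + 2 * n) ^ 2 * Wsq f u x := by
    rw [← sq_abs B]
    calc |B| ^ 2 ≤ ((2 + 2 * n) * w) ^ 2 := pow_le_pow_left₀ (abs_nonneg _) b4 2
      _ = _ := by rw [mul_pow, hw2]
  have c3 : (A + χ x * B) ^ 2 ≤ 2 * A ^ 2 + 2 * (χ x ^ 2 * B ^ 2) := by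
    nlinarith [sq_nonneg (A - χ x * B)]
  have c4 : χ x ^ 2 * B ^ 2 ≤ χ x ^ 2 * ((2 + 2 * n) ^ 2 * Wsq f u x) :=
    mul_le_mul_of_nonneg_left c2 (sq_nonneg _)
  have c5 : 0 ≤ χ x ^ 2 * Wsq f u x := mul_nonneg (sq_nonneg _) (Wsq_nonneg f u x)
  have c6 : 0 ≤ gsq χ x * gsq u x := mul_nonneg (gsq_nonneg _ _) (gsq_nonneg _ _)
  calc (A + χ x * B) ^ 2 ≤ 2 * (4 * (gsq χ x * gsq u x)) +
        2 * (χ x ^ 2 * ((2 + 2 * n) ^ 2 * Wsq f u x)) := by linarith
    _ = 8 * (gsq χ x * gsq u x) + 2 * (2 + 2 * n) ^ 2 * (χ x ^ 2 * Wsq f u x) := by ring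
    _ ≤ _ := by
      have c7 : 0 ≤ 2 * (2 + 2 * (n : ℝ)) ^ 2 * (gsq χ x * gsq u x) := by positivity
      nlinarith

/-- Convergence of the translation differences. -/
theorem tendsto_diff {g : ℕ → E n → ℝ} {g₀ G : E n → ℝ} (hg : ∀ m, Continuous (g m))
    (hG : Continuous G) (hGc : HasCompactSupport G) (hb : ∀ m x, |g m x| ≤ G x)
    (hlim : ∀ x, Tendsto (fun m => g m x) atTop (𝓝 (g₀ x))) (b : E n) :
    Tendsto (fun m => ∫ x, (g m (x + b) - g m x) ^ 2) atTop
      (𝓝 (∫ x, (g₀ (x + b) - g₀ x) ^ 2)) := by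
  have hsh : Continuous fun x : E n => x + b := by fun_prop
  apply tendsto_integral_of_dominated_convergence (fun x => (G (x + b) + G x) ^ 2)
  · intro m
    exact ((((hg m).comp hsh).sub (hg m)).pow 2).aestronglyMeasurable
  · have h1 : HasCompactSupport (fun x => G (x + b)) := hGc.comp_homeomorph (Homeomorph.addRight b)
    have h2 : HasCompactSupport (fun x => G (x + b) + G x) := h1.add hGc
    have h3 : HasCompactSupport (fun x => (G (x + b) + G x) ^ 2) := by
      simp only [pow_two]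
      exact h2.mul_left
    exact (((hG.comp hsh).add hG).pow 2).integrable_of_hasCompactSupport h3
  · intro m
    refine Filter.Eventually.of_forall fun x => ?_
    rw [Real.norm_eq_abs, abs_of_nonneg (sq_nonneg _), ← sq_abs (g m (x + b) - g m x)]
    refine pow_le_pow_left₀ (abs_nonneg _) ?_ 2
    exact (abs_sub _ _).trans (add_le_add (hb m _) (hb m _))
  · refine Filter.Eventually.of_forall fun x => ?_
    exact ((hlim _).sub (hlim _)).pow 2

theorem Pe_abs_le (χ u : E n → ℝ) {ε : ℝ} (hε : ε ≠ 0) (i j : Fin n) (x : E n) :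
    |Pe χ u ε i j x| ≤ |χ x| * gr u x := by
  unfold Pe
  rw [abs_mul, mul_div_assoc, abs_mul]
  refine mul_le_mul_of_nonneg_left ?_ (abs_nonneg _)
  calc |pd i u x| * |pd j u x / se u ε x| ≤ gr u x * 1 :=
        mul_le_mul (abs_pd_le_gr u i x) (abs_div_se_le u hε j x) (abs_nonneg _) (gr_nonneg u x)
    _ = _ := mul_one _

theorem Pe_tendsto (χ u : E n → ℝ) (i j : Fin n) (x : E n) :
    Tendsto (fun m : ℕ => Pe χ u (1 / ((m : ℝ) + 1)) i j x) atTop
      (𝓝 (χ x * gr u x * nu u i x * nu u j x)) := by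
  by_cases h0 : gr u x = 0
  · have h1 : pd i u x = 0 := (gr_eq_zero_iff u x).1 h0 i
    have h2 : ∀ m : ℕ, Pe χ u (1 / ((m : ℝ) + 1)) i j x = 0 := by
      intro m
      unfold Pe
      rw [h1, zero_mul, zero_div, mul_zero]
    simp only [h2, h0, mul_zero, zero_mul]
    exact tendsto_const_nhds
  · have hs : Tendsto (fun m : ℕ => se u (1 / ((m : ℝ) + 1)) x) atTop (𝓝 (gr u x)) := by
      have h1 : Tendsto (fun m : ℕ => gsq u x + (1 / ((m : ℝ) + 1)) ^ 2) atTop
          (𝓝 (gsq u x + 0 ^ 2)) :=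
        tendsto_const_nhds.add (tendsto_one_div_add_atTop_nhds_zero_nat.pow 2)
      have h2 := (Real.continuous_sqrt.tendsto _).comp h1
      rw [zero_pow two_ne_zero, add_zero] at h2
      exact h2
    have h3 : Tendsto (fun m : ℕ => Pe χ u (1 / ((m : ℝ) + 1)) i j x) atTop
        (𝓝 (χ x * (pd i u x * pd j u x / gr u x))) :=
      (tendsto_const_nhds.div hs h0).const_mul _
    have h4 : χ x * (pd i u x * pd j u x / gr u x) = χ x * gr u x * nu u i x * nu u j x := by
      unfold nu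
      field_simp
    rwa [h4] at h3

theorem sum_nu_trace (χ u : E n → ℝ) (x : E n) :
    ∑ i, χ x * gr u x * nu u i x * nu u i x = χ x * gr u x := by
  by_cases h0 : gr u x = 0
  · simp [h0]
  · have h1 : ∀ i, χ x * gr u x * nu u i x * nu u i x = χ x * gr u x * nu u i x ^ 2 := fun i => by
      ring
    simp_rw [h1]
    rw [← Finset.mul_sum, sum_nu_sq u h0, mul_one]

end M6

open M6 in
/-- M6b. -/
theorem P_translation (n : ℕ) : ∃ C : ℝ, 0 ≤ C ∧
    ∀ (Ω : Set (E n)) (f F : ℝ → ℝ) (u : E n → ℝ), Stable Ω f F u → ∀ χ, Test Ω χ →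
      ∀ (l : Fin n) (τ : ℝ),
      ∑ i, ∑ j, ∫ x, (χ (x + τ • EuclideanSpace.single l (1 : ℝ)) *
            gr u (x + τ • EuclideanSpace.single l (1 : ℝ)) *
            nu u i (x + τ • EuclideanSpace.single l (1 : ℝ)) *
            nu u j (x + τ • EuclideanSpace.single l (1 : ℝ))
          - χ x * gr u x * nu u i x * nu u j x) ^ 2 ≤
        C * ((∫ x, (χ (x + τ • EuclideanSpace.single l (1 : ℝ)) *
            gr u (x + τ • EuclideanSpace.single l (1 : ℝ)) - χ x * gr u x) ^ 2) +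
          |τ| * (1 + |τ|) * ((∫ x, χ x ^ 2 * Wsq f u x) + (∫ x, gsq χ x * gsq u x) +
            ∫ x, χ x ^ 2 * gsq u x)) := by
  obtain ⟨C6, hC6, h6⟩ := matrix_translation n
  set Cn : ℝ := 2 * (2 + 2 * n) ^ 2 + 8 with hCn
  have hCn0 : 0 ≤ Cn := by positivity
  set C' : ℝ := 1 + n ^ 3 * Cn + n ^ 2 with hC'
  have hC'1 : 1 ≤ C' := by
    have : (0 : ℝ) ≤ n ^ 3 * Cn + n ^ 2 := by positivity
    linarith
  refine ⟨C6 * C', by positivity, ?_⟩
  intro Ω f F u hst χ hχ l τ
  have hu := hst.smooth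
  have hu1 : ContDiff ℝ 1 u := hu.of_le (by exact_mod_cast le_top)
  set b : E n := τ • EuclideanSpace.single l (1 : ℝ) with hb
  -- integrals
  have hi1 : Integrable (fun x => χ x ^ 2 * Wsq f u x) := by
    have hc : HasCompactSupport (fun x => χ x ^ 2) := by
      simp only [pow_two]
      exact hχ.compact.mul_left
    have := integrable_Wsq_mul hst (hχ.continuous.pow 2) hc
    refine this.congr (Filter.Eventually.of_forall fun x => ?_)
    exact mul_comm _ _
  have hgχ : Continuous (gsq χ) := continuous_gsq (hχ.smooth.of_le (by exact_mod_cast le_top))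
  have hgu : Continuous (gsq u) := continuous_gsq hu1
  have hcχ : HasCompactSupport (gsq χ) := by
    refine hχ.compact.of_isClosed_subset (isClosed_tsupport _) (closure_minimal ?_
      (isClosed_tsupport _))
    intro x hx
    by_contra hcon
    apply hx
    unfold gsq
    refine Finset.sum_eq_zero fun i _ => ?_
    have : pd i χ x = 0 := by
      by_contra h
      exact hcon (tsupport_pd_subset i χ (subset_tsupport _ h))
    rw [this]
    norm_num
  have hi2 : Integrable (fun x => gsq χ x * gsq u x) :=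
    (hgχ.mul hgu).integrable_of_hasCompactSupport hcχ.mul_right
  have hi3 : Integrable (fun x => χ x ^ 2 * gsq u x) := by
    have hc : HasCompactSupport (fun x => χ x ^ 2) := by
      simp only [pow_two]
      exact hχ.compact.mul_left
    exact ((hχ.continuous.pow 2).mul hgu).integrable_of_hasCompactSupport hc.mul_right
  set I1 := ∫ x, χ x ^ 2 * Wsq f u x with hI1
  set I2 := ∫ x, gsq χ x * gsq u x with hI2
  set I3 := ∫ x, χ x ^ 2 * gsq u x with hI3
  have hI1' : 0 ≤ I1 := integral_nonneg fun x => mul_nonneg (sq_nonneg _) (Wsq_nonneg f u x)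
  have hI2' : 0 ≤ I2 := integral_nonneg fun x => mul_nonneg (gsq_nonneg _ _) (gsq_nonneg _ _)
  have hI3' : 0 ≤ I3 := integral_nonneg fun x => mul_nonneg (sq_nonneg _) (gsq_nonneg _ _)
  -- the estimate for ε > 0
  have hε : ∀ m : ℕ, (1 / ((m : ℝ) + 1)) ≠ 0 := fun m => by positivity
  have hest : ∀ m : ℕ, ∑ i, ∑ j, ∫ x, (Pe χ u (1 / ((m : ℝ) + 1)) i j (x + b) -
      Pe χ u (1 / ((m : ℝ) + 1)) i j x) ^ 2 ≤
      C6 * ((∫ x, ((fun y => ∑ i, Pe χ u (1 / ((m : ℝ) + 1)) i i y) (x + b) -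
        (fun y => ∑ i, Pe χ u (1 / ((m : ℝ) + 1)) i i y) x) ^ 2) +
        |τ| * (1 + |τ|) * (n ^ 3 * (Cn * (I1 + I2)) + n ^ 2 * I3)) := by
    intro m
    have hcomp : ∀ i j, HasCompactSupport (Pe χ u (1 / ((m : ℝ) + 1)) i j) := fun i j =>
      hχ.compact.mul_right
    refine (h6 (Pe χ u (1 / ((m : ℝ) + 1))) (fun i j => Pe_smooth hχ.smooth hu (hε m) i j)
      hcomp (fun i j => ?_) l τ).trans ?_
    · funext x
      unfold Pe
      ring
    · refine mul_le_mul_of_nonneg_left (add_le_add le_rfl (mul_le_mul_of_nonneg_left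
        (add_le_add ?_ ?_) (by positivity))) hC6
      · have hk : ∀ i j k : Fin n, ∫ x, (pd k (Pe χ u (1 / ((m : ℝ) + 1)) i j) x -
            pd i (Pe χ u (1 / ((m : ℝ) + 1)) k j) x) ^ 2 ≤ Cn * (I1 + I2) := by
          intro i j k
          have e1 : Cn * (I1 + I2) = ∫ x, Cn * (χ x ^ 2 * Wsq f u x + gsq χ x * gsq u x) := by
            rw [integral_const_mul, integral_add hi1 hi2]
          rw [e1]
          refine integral_mono_of_nonneg (Filter.Eventually.of_forall fun x => sq_nonneg _)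
            ((hi1.add hi2).const_mul Cn) (Filter.Eventually.of_forall fun x => ?_)
          exact curl_bound hχ.smooth hu f (hε m) k i j x
        calc _ ≤ ∑ i : Fin n, ∑ j : Fin n, ∑ k : Fin n, Cn * (I1 + I2) :=
              Finset.sum_le_sum fun i _ => Finset.sum_le_sum fun j _ =>
                Finset.sum_le_sum fun k _ => hk i j k
          _ = _ := by
            simp only [Finset.sum_const, Finset.card_univ, Fintype.card_fin, nsmul_eq_mul]
            ring
      · have hk : ∀ i j : Fin n, ∫ x, (Pe χ u (1 / ((m : ℝ) + 1)) i j x) ^ 2 ≤ I3 := by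
          intro i j
          refine integral_mono_of_nonneg (Filter.Eventually.of_forall fun x => sq_nonneg _)
            hi3 (Filter.Eventually.of_forall fun x => ?_)
          change (Pe χ u (1 / ((m : ℝ) + 1)) i j x) ^ 2 ≤ χ x ^ 2 * gsq u x
          rw [← sq_abs (Pe χ u (1 / ((m : ℝ) + 1)) i j x)]
          calc |Pe χ u (1 / ((m : ℝ) + 1)) i j x| ^ 2 ≤ (|χ x| * gr u x) ^ 2 :=
                pow_le_pow_left₀ (abs_nonneg _) (Pe_abs_le χ u (hε m) i j x) 2
            _ = _ := by rw [mul_pow, sq_abs, gr_sq]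
        calc _ ≤ ∑ i : Fin n, ∑ j : Fin n, I3 :=
              Finset.sum_le_sum fun i _ => Finset.sum_le_sum fun j _ => hk i j
          _ = _ := by
            simp only [Finset.sum_const, Finset.card_univ, Fintype.card_fin, nsmul_eq_mul]
            ring
  -- limits
  have hGcont : Continuous (fun x => |χ x| * gr u x) :=
    hχ.continuous.abs.mul (continuous_gr hu1)
  have hGcomp : HasCompactSupport (fun x => |χ x| * gr u x) := by
    have : HasCompactSupport (fun x => |χ x|) := hχ.compact.norm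
    exact this.mul_right
  have hL : Tendsto (fun m : ℕ => ∑ i, ∑ j, ∫ x, (Pe χ u (1 / ((m : ℝ) + 1)) i j (x + b) -
      Pe χ u (1 / ((m : ℝ) + 1)) i j x) ^ 2) atTop
      (𝓝 (∑ i, ∑ j, ∫ x, ((fun y => χ y * gr u y * nu u i y * nu u j y) (x + b) -
        (fun y => χ y * gr u y * nu u i y * nu u j y) x) ^ 2)) := by
    refine tendsto_finsetSum _ fun i _ => tendsto_finsetSum _ fun j _ => ?_
    exact tendsto_diff (fun m => (Pe_smooth hχ.smooth hu (hε m) i j).continuous) hGcont hGcomp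
      (fun m x => Pe_abs_le χ u (hε m) i j x) (fun x => Pe_tendsto χ u i j x) b
  have hR : Tendsto (fun m : ℕ => ∫ x, ((fun y => ∑ i, Pe χ u (1 / ((m : ℝ) + 1)) i i y) (x + b) -
        (fun y => ∑ i, Pe χ u (1 / ((m : ℝ) + 1)) i i y) x) ^ 2) atTop
      (𝓝 (∫ x, ((fun y => χ y * gr u y) (x + b) - (fun y => χ y * gr u y) x) ^ 2)) := by
    refine tendsto_diff (G := fun x => n * (|χ x| * gr u x))
      (g := fun (m : ℕ) y => ∑ i, Pe χ u (1 / ((m : ℝ) + 1)) i i y) (g₀ := fun y => χ y * gr u y)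
      (fun m => continuous_finsetSum _ fun i _ => (Pe_smooth hχ.smooth hu (hε m) i i).continuous)
      (continuous_const.mul hGcont) hGcomp.mul_left (fun m x => ?_) (fun x => ?_) b
    · refine (Finset.abs_sum_le_sum_abs _ _).trans ?_
      refine (Finset.sum_le_sum fun i _ => Pe_abs_le χ u (hε m) i i x).trans ?_
      rw [Finset.sum_const, Finset.card_univ, Fintype.card_fin, nsmul_eq_mul]
    · have := tendsto_finsetSum Finset.univ fun i _ => Pe_tendsto χ u i i x
      rwa [sum_nu_trace] at this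
  have hfin := le_of_tendsto_of_tendsto' hL ((hR.add_const _).const_mul C6) hest
  refine hfin.trans ?_
  rw [mul_assoc C6 C']
  refine mul_le_mul_of_nonneg_left ?_ hC6
  set IT := ∫ x, ((fun y => χ y * gr u y) (x + b) - (fun y => χ y * gr u y) x) ^ 2
  have hIT : 0 ≤ IT := integral_nonneg fun x => sq_nonneg _
  have ht : 0 ≤ |τ| * (1 + |τ|) := by positivity
  have k1 : n ^ 3 * (Cn * (I1 + I2)) + n ^ 2 * I3 ≤ C' * (I1 + I2 + I3) := by
    rw [hC']
    have p1 : (0 : ℝ) ≤ n ^ 3 * Cn := by positivity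
    have p2 : (0 : ℝ) ≤ (n : ℝ) ^ 2 := by positivity
    have q1 := mul_nonneg p1 hI3'
    have q2 := mul_nonneg p2 hI1'
    have q3 := mul_nonneg p2 hI2'
    nlinarith
  have k2 : |τ| * (1 + |τ|) * (n ^ 3 * (Cn * (I1 + I2)) + n ^ 2 * I3) ≤
      |τ| * (1 + |τ|) * (C' * (I1 + I2 + I3)) := mul_le_mul_of_nonneg_left k1 ht
  have k3 : IT ≤ C' * IT := le_mul_of_one_le_left hIT hC'1
  calc IT + |τ| * (1 + |τ|) * (n ^ 3 * (Cn * (I1 + I2)) + n ^ 2 * I3) ≤
        C' * IT + |τ| * (1 + |τ|) * (C' * (I1 + I2 + I3)) := add_le_add k3 k2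
    _ = C' * (IT + |τ| * (1 + |τ|) * (I1 + I2 + I3)) := by ring

end Pool.Agent.H94.Stab
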